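import Pool.Agent.R644.UGEx

/-!
# Back-and-forth equivalent groups have elementarily equivalent universal group C*-algebras
-/

set_option autoImplicit false

universe u v w

namespace Pool.Agent.Results.MP_a32272_lc.UniversalCstarBackAndForth

open Pool.Agent.R644.UG

/-- Every group has a universal group C*-algebra, and if `G ≡^bf_ω H` then the universal group
C*-algebras of `G` and `H` are elementarily equivalent. -/
theorem result :
    (∀ (G : Type u) [Group G], ∃ (A : Type u) (_ : CStarAlgebra A), IsGroupCStar G A) ∧
    ∀ (G H : Type u) [Group G] [Group H], BFomega G H →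
      ∀ (A : Type v) [CStarAlgebra A] (B : Type w) [CStarAlgebra B],
        IsGroupCStar G A → IsGroupCStar H B → ElemEq A B := by
  refine ⟨fun G _ => exists_universal G, ?_⟩
  rintro G H _ _ h A _ B _ ⟨ι, hA⟩ ⟨κ, hB⟩
  exact elemEq_of_bf hA hB h

end Pool.Agent.Results.MP_a32272_lc.UniversalCstarBackAndForth
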